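import Pool.Agent.H.MP_57aba6_an.B

namespace Pool.Agent.Results.MP_57aba6_an.Q2

open Polynomial Pool.Agent.H.MP_57aba6_an

theorem result : ∃ X : Set ℝ, IsCompact X ∧ ¬ IsPreconnected X ∧ X.ncard = 4 ∧
    ∀ f : ℝ → ℝ, ∀ ε > 0, ∃ p : ℝ[X],
      (∀ z : ℂ, aeval z (derivative p) = 0 → ∃ x ∈ X, z = (x : ℝ)) ∧
      ∀ x ∈ X, |p.eval x - f x| < ε := by
  obtain ⟨b, hb, hb1, hd⟩ := dense_ratio
  refine ⟨{-1, -b, b, 1}, (Set.toFinite _).isCompact, fun h => ?_, ?_, fun f ε hε => ?_⟩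
  · have h1 := h.Icc_subset (a := -b) (b := b) (by simp) (by simp)
      (show (0 : ℝ) ∈ Set.Icc (-b) b from ⟨by linarith, hb.le⟩)
    simp only [Set.mem_insert_iff, Set.mem_singleton_iff] at h1
    rcases h1 with h | h | h | h <;> linarith
  · rw [Set.ncard_insert_of_notMem, Set.ncard_insert_of_notMem, Set.ncard_pair (by linarith)]
    · simp only [Set.mem_insert_iff, Set.mem_singleton_iff]
      rintro (h | h) <;> linarith
    · simp only [Set.mem_insert_iff, Set.mem_singleton_iff]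
      rintro (h | h | h) <;> linarith
  obtain ⟨D, hD, hD2⟩ := (dense_compl_singleton (0 : ℝ)).exists_dist_lt (f b - f (-b))
    (show 0 < ε / 3 by linarith)
  have hD : D ≠ 0 := hD
  obtain ⟨_, ⟨m, h1, rfl⟩, h2⟩ := hd.exists_dist_lt ((f (-b) - f (-1)) / D, (f 1 - f b) / D)
    (show 0 < ε / 3 / |D| by positivity)
  rw [Prod.dist_eq, max_lt_iff, Real.dist_eq, Real.dist_eq, lt_div_iff₀ (abs_pos.2 hD),
    lt_div_iff₀ (abs_pos.2 hD), ← abs_mul, ← abs_mul, sub_mul, sub_mul, div_mul_cancel₀ _ hD,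
    div_mul_cancel₀ _ hD, abs_lt, abs_lt] at h2
  rw [Real.dist_eq, abs_lt] at hD2
  obtain ⟨A, hA⟩ := antider (∏ j, (X - C (![-1, -b, b, 1] j)) ^ m j)
  have hI : ∀ p q, gap b m p q = A.eval q - A.eval p := fun p q => by
    refine intervalIntegral.integral_eq_sub_of_hasDerivAt (f := fun t => A.eval t)
      (fun t _ => ?_) (Continuous.intervalIntegrable (by fun_prop) _ _)
    simpa [hA, eval_prod] using A.hasDerivAt t
  simp only [hI] at h1 h2
  obtain ⟨c, hc⟩ : ∃ c, c = D / (A.eval b - A.eval (-b)) := ⟨_, rfl⟩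
  have hc0 : c ≠ 0 := hc ▸ div_ne_zero hD h1
  have e1 : ∀ y, y / (A.eval b - A.eval (-b)) * D = c * y := fun y => by rw [hc]; ring
  have e2 : c * (A.eval b - A.eval (-b)) = D := by rw [hc, div_mul_cancel₀ _ h1]
  rw [e1, e1] at h2
  refine ⟨C (f (-1) - c * A.eval (-1)) + C c * A, fun z hz => ?_, fun x hx => ?_⟩
  · rw [derivative_add, derivative_C, derivative_C_mul, zero_add, hA] at hz
    simp only [map_mul, aeval_C, map_prod, map_pow, map_sub, aeval_X, mul_eq_zero, Finset.prod_eq_zero_iff] at hz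
    rcases hz with h | ⟨j, -, h⟩
    · exact absurd (by simpa using h) hc0
    · refine ⟨![-1, -b, b, 1] j, ?_, sub_eq_zero.1 (pow_eq_zero_iff'.1 h).1⟩
      fin_cases j <;> simp
  · simp only [eval_add, eval_C, eval_mul, abs_lt]
    simp only [Set.mem_insert_iff, Set.mem_singleton_iff] at hx
    rcases hx with rfl | rfl | rfl | rfl <;> constructor <;> linarith [h2.1.1, h2.1.2, h2.2.1, h2.2.2]

end Pool.Agent.Results.MP_57aba6_an.Q2
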